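import Pool.Agent.Helper99.SI.StF

set_option autoImplicit false
set_option linter.unusedSectionVars false

/-!
# Project SI, module F4: the function P
-/

namespace Pool.Agent.Helper91.SI

open Pool.Agent.Helper99.SI Filter Topology

section

variable {n : ℕ} {L : Type} [Ring L] [Algebra ℂ L] [StarRing L]

/-- Cf is additive. -/
theorem Cf_add (m : MData n L) (t : ℝ) (x y : Idx n m.r → ℂ) (i : Idx n m.r) :
    m.Cf t (fun k => x k + y k) i = m.Cf t x i + m.Cf t y i := by
  rcases i with (ν | ν) | b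
  · simp only [MData.Cf, star_add, add_mul, Finset.sum_add_distrib]
    ring
  · simp only [MData.Cf, star_add, add_mul, Finset.sum_add_distrib]
    ring
  · simp only [MData.Cf, star_add, add_mul, Finset.sum_add_distrib]

/-- Cf is conjugate homogeneous. -/
theorem Cf_smul (m : MData n L) (t : ℝ) (a : ℂ) (x : Idx n m.r → ℂ) (i : Idx n m.r) :
    m.Cf t (fun k => a * x k) i = star a * m.Cf t x i := by
  have e : ∀ (c d : ℂ), star (c * d) = star c * star d := fun c d => by
    rw [star_mul, mul_comm]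
  rcases i with (ν | ν) | b
  · simp only [MData.Cf, e, mul_add, Finset.mul_sum, mul_assoc]
  · simp only [MData.Cf, e, mul_add, Finset.mul_sum, mul_assoc]
  · simp only [MData.Cf, e, Finset.mul_sum, mul_assoc]

/-- The columns Cc t (inr a) are supported on short indices. -/
theorem Cc_zero (D : Sys n L) (X0 : Set L) (m : MData n L) (hm : IsModel D X0 m) (t : ℝ)
    (a : Fin m.r) (i : Idx n m.r) (hi : m.M2 ≤ ilen i) : m.Cc t (Sum.inr a) i = 0 := by
  simp only [MData.Cc, Finsupp.finsetSum_apply, Finsupp.smul_apply]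
  refine Finset.sum_eq_zero fun j _ => ?_
  have h : m.Cm j a i = 0 := by
    by_contra hne
    have := hm.Csupp j a i hne
    omega
  rw [h, smul_zero]

/-- A vector supported on J is in the span of the basis vectors. -/
theorem mem_span {r : ℕ} (J : Finset (Idx n r)) (z : L2 (Idx n r)) (hz : ∀ i ∉ J, z i = 0) :
    z ∈ Submodule.span ℂ (Set.range (eJ J)) := by
  have e : z = ∑ j : {i // i ∈ J}, (z j.1) • eJ J j := by
    apply lp.ext
    funext i
    rw [lp.coeFn_sum, Finset.sum_apply]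
    by_cases hi : i ∈ J
    · rw [Finset.sum_eq_single ⟨i, hi⟩]
      · rw [lp.coeFn_smul, Pi.smul_apply]
        simp only [eJ, eb]
        rw [lp.single_apply_self, smul_eq_mul, mul_one]
      · intro j _ hj
        rw [lp.coeFn_smul, Pi.smul_apply]
        simp only [eJ, eb]
        rw [lp.single_apply_ne, smul_zero]
        intro h
        exact hj (Subtype.ext h.symm)
      · intro h
        exact absurd (Finset.mem_univ _) h
    · rw [hz i hi]
      symm
      apply Finset.sum_eq_zero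
      intro j _
      rw [lp.coeFn_smul, Pi.smul_apply]
      simp only [eJ, eb]
      rw [lp.single_apply_ne, smul_zero]
      intro h
      exact hi (h ▸ j.2)
  rw [e]
  exact Submodule.sum_mem _ fun j _ => Submodule.smul_mem _ _ (Submodule.subset_span ⟨j, rfl⟩)

variable [StarModule ℂ L] [Nontrivial L]

theorem TT_apply {D : Sys n L} {m : MData n L} {J0 : Finset (Idx n m.r)} (P : OpPack D m J0)
    (s u : ℝ) (z : L2 (Idx n m.r)) :
    P.TT s u z = P.G u (z - (s : ℂ) • P.Ph (u ^ P.n1) z) := rfl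

theorem TT_zero {D : Sys n L} {m : MData n L} {J0 : Finset (Idx n m.r)} (P : OpPack D m J0)
    (u : ℝ) : P.TT 0 u = P.G u := by
  ext1 z
  rw [TT_apply]
  simp

theorem TT_cont {D : Sys n L} {m : MData n L} {J0 : Finset (Idx n m.r)} (P : OpPack D m J0) :
    ContinuousOn (fun x : ℝ × ℝ => P.TT x.1 x.2) Dom := by
  unfold OpPack.TT
  have hpos : ∀ x ∈ Dom, (0 : ℝ) < x.2 := fun x hx => hx.2.2.1
  apply ContinuousOn.clm_comp
  · exact P.Gc.comp continuous_snd.continuousOn (fun x hx => hpos x hx)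
  · apply ContinuousOn.sub continuousOn_const
    have c1 : ContinuousOn (fun x : ℝ × ℝ => ((x.1 : ℝ) : ℂ)) Dom :=
      (Complex.continuous_ofReal.comp continuous_fst).continuousOn
    have c2 : ContinuousOn (fun x : ℝ × ℝ => P.Ph (x.2 ^ P.n1)) Dom :=
      P.Phc.comp (continuous_snd.pow _).continuousOn (fun x hx => pow_pos (hpos x hx) _)
    exact c1.smul c2

theorem Cop_add {D : Sys n L} {m : MData n L} {J0 : Finset (Idx n m.r)} (P : OpPack D m J0)
    (t : ℝ) (ht : 0 < t) (x y : L2 (Idx n m.r)) :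
    P.Cop t (x + y) = P.Cop t x + P.Cop t y := by
  apply lp.ext
  funext i
  rw [lp.coeFn_add, Pi.add_apply, P.Cs t ht, P.Cs t ht, P.Cs t ht, ← Cf_add]
  rfl

theorem Cop_smul {D : Sys n L} {m : MData n L} {J0 : Finset (Idx n m.r)} (P : OpPack D m J0)
    (t : ℝ) (ht : 0 < t) (a : ℂ) (x : L2 (Idx n m.r)) :
    P.Cop t (a • x) = star a • P.Cop t x := by
  apply lp.ext
  funext i
  rw [lp.coeFn_smul, Pi.smul_apply, P.Cs t ht, P.Cs t ht, smul_eq_mul, ← Cf_smul]
  rfl

theorem real_det (h4 : StS5) (h6 : StF0) (D : Sys n L) (X0 : Set L) (m : MData n L)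
    (hm : IsModel D X0 m) (J0 : Finset (Idx n m.r)) (P : OpPack D m J0) (s u : ℝ)
    (hx : (s, u) ∈ Dom) (S : Matrix {i // i ∈ P.J} {i // i ∈ P.J} ℂ)
    (hS : SchurRel (eJ P.J) (P.TT s u) S) : S.det.im = 0 := by
  obtain ⟨a1, a2, a3⟩ := h6 n L D m J0 P
  have hu : 0 < u := hx.2.2.1
  have ht : 0 < u ^ P.n1 := pow_pos hu _
  have hM2 : 0 < m.M2 := lt_of_lt_of_le (lt_of_lt_of_le one_pos hm.M1) hm.MM
  have hinr : ∀ a : Fin m.r, (Sum.inr a : Idx n m.r) ∈ P.J := fun a => P.JM2 _ hM2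
  refine h4 (L2 (Idx n m.r)) {i // i ∈ P.J} (eJ P.J) a1 (P.TT s u) S (P.Cop (u ^ P.n1))
    (a3 s u hx) hS (Cop_add P _ ht) (Cop_smul P _ ht) ?_ ?_ ?_ ?_
  · intro x y hxy
    rw [← P.CC _ ht x, ← P.CC _ ht y, hxy]
  · intro z
    rw [TT_apply, TT_apply, P.CG _ _ ht hu]
    have e1 : z - (s : ℂ) • P.Ph (u ^ P.n1) z = z + (-(s : ℂ)) • P.Ph (u ^ P.n1) z := by
      rw [neg_smul, sub_eq_add_neg]
    rw [e1, Cop_add P _ ht, Cop_smul P _ ht, P.CPh _ ht]
    congr 1
    have e2 : star (-(s : ℂ)) = -(s : ℂ) := by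
      rw [star_neg]
      congr 1
      exact Complex.conj_ofReal s
    rw [e2, neg_smul, sub_eq_add_neg]
  · intro j
    apply mem_span
    intro i hi
    rw [P.Cs _ ht]
    have hlen : m.M2 ≤ ilen i := by
      by_contra hc
      exact hi (P.JM2 i (by omega))
    rcases i with (ν | ν) | b
    · have hi' : (Sum.inl (Sum.inr ν) : Idx n m.r) ∉ P.J := fun h => hi ((P.Jsym ν).mpr h)
      show star (eJ P.J j (Sum.inl (Sum.inr ν))) + _ = 0
      have e : eJ P.J j (Sum.inl (Sum.inr ν)) = 0 := by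
        simp only [eJ, eb]
        rw [lp.single_apply_ne]
        intro h
        exact hi' (h ▸ j.2)
      rw [e, star_zero, zero_add]
      refine Finset.sum_eq_zero fun a _ => ?_
      rw [Cc_zero D X0 m hm _ a _ hlen, mul_zero]
    · have hi' : (Sum.inl (Sum.inl ν) : Idx n m.r) ∉ P.J := fun h => hi ((P.Jsym ν).mp h)
      show star (eJ P.J j (Sum.inl (Sum.inl ν))) + _ = 0
      have e : eJ P.J j (Sum.inl (Sum.inl ν)) = 0 := by
        simp only [eJ, eb]
        rw [lp.single_apply_ne]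
        intro h
        exact hi' (h ▸ j.2)
      rw [e, star_zero, zero_add]
      refine Finset.sum_eq_zero fun a _ => ?_
      rw [Cc_zero D X0 m hm _ a _ hlen, mul_zero]
    · exact absurd (hinr b) hi
  · intro z hz i
    have hz' : ∀ i ∈ P.J, z i = 0 := fun i hi => by
      rw [← a2 ⟨i, hi⟩ z]
      exact hz _
    rw [a2, P.Cs _ ht]
    have h0 : ∀ a : Fin m.r, z (Sum.inr a) = 0 := fun a => hz' _ (hinr a)
    obtain ⟨i, hi⟩ := i
    rcases i with (ν | ν) | b
    · show star (z (Sum.inl (Sum.inr ν))) + ∑ a, star (z (Sum.inr a)) * _ = 0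
      rw [hz' _ ((P.Jsym ν).mp hi), star_zero, zero_add]
      refine Finset.sum_eq_zero fun a _ => ?_
      rw [h0 a, star_zero, zero_mul]
    · show star (z (Sum.inl (Sum.inl ν))) + ∑ a, star (z (Sum.inr a)) * _ = 0
      rw [hz' _ ((P.Jsym ν).mpr hi), star_zero, zero_add]
      refine Finset.sum_eq_zero fun a _ => ?_
      rw [h0 a, star_zero, zero_mul]
    · show ∑ a, star (z (Sum.inr a)) * _ = 0
      refine Finset.sum_eq_zero fun a _ => ?_
      rw [h0 a, star_zero, zero_mul]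

end

open Classical in
theorem hF4 (h1 : StS1) (h2 : StS2) (h3 : StS3) (h4 : StS5) (h5 : StS6) (h6 : StF0)
    (h7 : StF2) : StF4 := by
  intro n L _ _ _ _ _ D X0 m hm J0 P
  obtain ⟨a1, a2, a3⟩ := h6 n L D m J0 P
  have hex : ∀ x ∈ Dom, ∃ S : Matrix {i // i ∈ P.J} {i // i ∈ P.J} ℂ,
      SchurRel (eJ P.J) (P.TT x.1 x.2) S := fun x hx =>
    (h1 _ _ (eJ P.J) a1 (P.TT x.1 x.2) (a3 x.1 x.2 hx)).exists
  choose! S hS using hex
  refine ⟨S, ?_, hS, ?_, ?_, ?_⟩
  · exact h2 _ _ (eJ P.J) a1 _ Dom (fun x => P.TT x.1 x.2) S (TT_cont P)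
      (fun x hx => a3 x.1 x.2 hx) hS
  · intro x hx
    exact real_det h4 h6 D X0 m hm J0 P x.1 x.2 hx (S x) (hS x hx)
  · intro u hu hu1
    have hx : ((0, u) : ℝ × ℝ) ∈ Dom :=
      ⟨le_refl _, zero_le_one, hu, hu1, fun h => zero_ne_one h.1⟩
    have hs := hS (0, u) hx
    have e : P.TT ((0, u) : ℝ × ℝ).1 ((0, u) : ℝ × ℝ).2 = P.G u := TT_zero P u
    rw [e] at hs
    exact (h5 _ _ (eJ P.J) a1 (P.G u) (S (0, u)) 1 one_pos (P.Gsa u hu)
      (fun z => by rw [one_mul]; exact P.Gge u hu z) hs).1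
  · intro x hx
    rw [h3 _ _ (eJ P.J) a1 (P.TT x.1 x.2) (S x) (a3 x.1 x.2 hx) (hS x hx)]
    exact (h7 n L D m J0 P x.1 x.2 hx.2.2.1).1

end Pool.Agent.Helper91.SI
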