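import Pool.Agent.Helper99.SI.StS

/-!
Project SI (MP_181f94_al), module S8: the final sign argument.
-/

set_option autoImplicit false

namespace Pool.Agent.Helper91.SI

open Filter Topology
open Pool.Agent.Helper99.SI

theorem sgn {X : Type} [TopologicalSpace X] {S : Set X} (hS : IsPreconnected S) {f : X → ℝ}
    (hf : ContinuousOn f S) (hne : ∀ x ∈ S, f x ≠ 0) {x y : X} (hx : x ∈ S) (hy : y ∈ S)
    (h : 0 < f x) : 0 < f y := by
  by_contra hn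
  push Not at hn
  obtain ⟨z, hz, hz0⟩ := hS.intermediate_value hy hx hf ⟨hn, h.le⟩
  exact hne z hz hz0

theorem hS8 : StS8 := by
  intro P P00 P0 q N hN hc h0 hP00c hP00n hP1 hP0c hP0n hq hq0 hPq hn0 hn1
  obtain ⟨t1, ht1, hn0⟩ := hn0
  obtain ⟨ε, hε, hn1⟩ := hn1
  by_contra hcon
  push Not at hcon
  -- (a)
  have ha : ∀ s ∈ Set.Ico (0 : ℝ) 1, 0 < P00 s := by
    intro s hs
    have h00 : (0 : ℝ) ∈ Set.Ico (0 : ℝ) 1 := ⟨le_rfl, one_pos⟩
    refine sgn isPreconnected_Ico hP00c hP00n h00 hs ?_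
    have h1 := hP1 0 h00
    have h2 := h0 1 one_pos le_rfl
    rw [h1, mul_zero, sub_zero, mul_one] at h2
    exact h2
  -- the vertical and horizontal segments
  have hver : ∀ s a b : ℝ, 0 ≤ s → s < 1 → 0 < a → b ≤ 1 →
      ContinuousOn (fun t => P s t) (Set.Icc a b) := by
    intro s a b hs0 hs1 ha0 hb1
    have h1 : ContinuousOn (fun t : ℝ => ((s, t) : ℝ × ℝ)) (Set.Icc a b) :=
      (continuous_const.prodMk continuous_id).continuousOn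
    refine ContinuousOn.comp (g := fun x : ℝ × ℝ => P x.1 x.2) hc h1 ?_
    intro t ht
    exact ⟨hs0, hs1.le, lt_of_lt_of_le ha0 ht.1, ht.2.trans hb1, fun h => hs1.ne h.1⟩
  have hhor : ∀ t a b : ℝ, 0 < t → t < 1 → 0 ≤ a → b ≤ 1 →
      ContinuousOn (fun s => P s t) (Set.Icc a b) := by
    intro t a b ht0 ht1' ha0 hb1
    have h1 : ContinuousOn (fun s : ℝ => ((s, t) : ℝ × ℝ)) (Set.Icc a b) :=
      (continuous_id.prodMk continuous_const).continuousOn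
    refine ContinuousOn.comp (g := fun x : ℝ × ℝ => P x.1 x.2) hc h1 ?_
    intro s hs
    exact ⟨ha0.trans hs.1, hs.2.trans hb1, ht0, ht1'.le, fun h => ht1'.ne h.2⟩
  -- (b)
  have hb : ∀ t ∈ Set.Ioo (0 : ℝ) 1, 0 < P0 t := by
    have hev : ∀ᶠ t in 𝓝[>] (0 : ℝ), 0 < q t ∧ t < t1 ∧ t < 1 ∧ 0 < t := by
      have h1 : ∀ᶠ t in 𝓝 (0 : ℝ), 0 < q t :=
        hq.continuousAt.eventually (lt_mem_nhds (by rw [hq0]; exact one_pos))
      have h2 : ∀ᶠ t in 𝓝 (0 : ℝ), t < t1 := gt_mem_nhds ht1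
      have h3 : ∀ᶠ t in 𝓝 (0 : ℝ), t < 1 := gt_mem_nhds one_pos
      filter_upwards [nhdsWithin_le_nhds h1, nhdsWithin_le_nhds h2, nhdsWithin_le_nhds h3,
        self_mem_nhdsWithin] with t a b c d
      exact ⟨a, b, c, d⟩
    obtain ⟨t, hqt, htt, ht1', ht0⟩ := hev.exists
    have h1 : 0 < P 1 t := by
      refine sgn (f := fun s => P s t) (isPreconnected_Icc (a := (0 : ℝ)) (b := 1))
        (hhor t 0 1 ht0 ht1' le_rfl le_rfl) ?_ (x := 0) (y := 1) ⟨le_rfl, zero_le_one⟩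
        ⟨zero_le_one, le_rfl⟩ (h0 t ht0 ht1'.le)
      intro s hs
      exact hn0 t ht0 htt.le ht1'.le s hs.1 hs.2
    rw [hPq t ⟨ht0, ht1'⟩] at h1
    have h2 : 0 < P0 t := (pos_iff_pos_of_mul_pos h1).2 hqt
    intro t' ht'
    exact sgn isPreconnected_Ioo hP0c hP0n (x := t) (y := t') ⟨ht0, ht1'⟩ ht' h2
  -- (c)
  have hev : ∀ᶠ r in 𝓝[<] (1 : ℝ), 0 < q r ∧ 1 - ε < r ∧ 1 / N < r ∧ 0 < r ∧ r < 1 := by
    have h1 : ∀ᶠ t in 𝓝 (1 : ℝ), 0 < q t := hq.continuousAt.eventually (lt_mem_nhds hcon)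
    have h2 : ∀ᶠ t in 𝓝 (1 : ℝ), 1 - ε < t := lt_mem_nhds (by linarith)
    have h3 : ∀ᶠ t in 𝓝 (1 : ℝ), 1 / N < t := by
      refine lt_mem_nhds ?_
      rw [div_lt_one (by linarith)]
      exact hN
    have h4 : ∀ᶠ t in 𝓝 (1 : ℝ), 0 < t := lt_mem_nhds one_pos
    filter_upwards [nhdsWithin_le_nhds h1, nhdsWithin_le_nhds h2, nhdsWithin_le_nhds h3,
      nhdsWithin_le_nhds h4, self_mem_nhdsWithin] with t a b c d e
    exact ⟨a, b, c, d, e⟩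
  obtain ⟨r, hqr, hrε, hrN, hr0, hr1⟩ := hev.exists
  have k1 : 0 < P 1 r := by
    rw [hPq r ⟨hr0, hr1⟩]
    exact mul_pos (hb r ⟨hr0, hr1⟩) hqr
  have k2 : 0 < P r r := by
    refine sgn (f := fun s => P s r) (isPreconnected_Icc (a := r) (b := 1))
      (hhor r r 1 hr0 hr1 hr0.le le_rfl) ?_ (x := 1) (y := r) ⟨hr1.le, le_rfl⟩ ⟨le_rfl, hr1.le⟩ k1
    intro s hs
    exact hn1 s r (lt_of_lt_of_le hrε hs.1) hs.2 hrε hr1.le fun h => hr1.ne h.2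
  have k3 : 0 < P r 1 := by
    refine sgn (f := fun t => P r t) (isPreconnected_Icc (a := r) (b := 1))
      (hver r r 1 hr0.le hr1 hr0 le_rfl) ?_ (x := r) (y := 1) ⟨le_rfl, hr1.le⟩ ⟨hr1.le, le_rfl⟩ k2
    intro t ht
    exact hn1 r t hrε hr1.le (lt_of_lt_of_le hrε ht.1) ht.2 fun h => hr1.ne h.1
  have k4 : P r 1 < 0 := by
    rw [hP1 r ⟨hr0.le, hr1⟩]
    refine mul_neg_of_pos_of_neg (ha r ⟨hr0.le, hr1⟩) ?_
    have : 1 < N * r := by
      rw [div_lt_iff₀ (by linarith)] at hrN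
      linarith
    linarith
  linarith

end Pool.Agent.Helper91.SI
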